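import Pool.Agent.Q303.Sph.Rot

set_option autoImplicit false

/-!
# Colourings without distinguishing extension
-/

open Matrix Cardinal

namespace Pool.Agent.Q303.Sph

theorem exists_param (K : Subfield ℂ) (hK : #K < 𝔠) (hI : Complex.I ∈ K) (ι : Type)
    (hι : #ι ≤ 𝔠) :
    ∃ t : ι → Fin 4 → ℝ, AlgebraicIndependent K (fun p : ι × Fin 4 => (t p.1 p.2 : ℂ)) := by
  let s : Set ℂ := Set.range ((↑) : ℝ → ℂ)
  have htop : Algebra.adjoin K s = ⊤ := by
    rw [eq_top_iff]
    intro z _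
    rw [← Complex.re_add_im z]
    refine add_mem (Algebra.subset_adjoin ⟨_, rfl⟩) (mul_mem (Algebra.subset_adjoin ⟨_, rfl⟩) ?_)
    exact (Algebra.adjoin K s).algebraMap_mem ⟨Complex.I, hI⟩
  have : Algebra.IsAlgebraic (Algebra.adjoin K s) ℂ := by
    refine ⟨fun z => ?_⟩
    have hz : z ∈ Algebra.adjoin K s := by rw [htop]; trivial
    exact isAlgebraic_algebraMap (⟨z, hz⟩ : Algebra.adjoin K s)
  obtain ⟨B, hBs, hB⟩ := exists_isTranscendenceBasis_subset (R := K) (A := ℂ) s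
  have hcard : 𝔠 ≤ #B := by
    have := IsAlgClosed.cardinal_le_max_transcendence_basis' _ hB
    rw [mk_complex] at this
    by_contra hlt
    rw [not_le] at hlt
    exact absurd this (not_le.2 (max_lt (max_lt hK hlt) aleph0_lt_continuum))
  have hp : #(ι × Fin 4) ≤ #B := by
    refine le_trans ?_ hcard
    rw [mk_prod]
    simp only [lift_id, mk_fin]
    refine le_trans (mul_le_mul' hι (le_of_lt (lt_trans (natCast_lt_aleph0) aleph0_lt_continuum))) ?_
    rw [continuum_mul_self]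
  obtain ⟨f⟩ := hp
  choose r hr using fun b : B => hBs b.2
  refine ⟨fun a i => r (f (a, i)), ?_⟩
  have h1 := hB.1.comp f f.injective
  convert h1 using 1
  funext p
  simp [hr]

lemma nq_ne {ι : Type*} (K : Subfield ℂ) (t : ι → Fin 4 → ℝ)
    (ht : AlgebraicIndependent K (fun p : ι × Fin 4 => (t p.1 p.2 : ℂ))) (a : ι) :
    nq (t a) ≠ 0 := by
  intro h
  have h0 : (t a 0 : ℂ) ≠ 0 := ht.ne_zero (a, 0)
  apply h0
  have : t a 0 = 0 := by
    unfold nq at h
    nlinarith [sq_nonneg (t a 0), sq_nonneg (t a 1), sq_nonneg (t a 2), sq_nonneg (t a 3)]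
  rw [this]; simp

/-- the action of the free group by rotations -/
noncomputable def phi {ι : Type*} (t : ι → Fin 4 → ℝ) (h : ∀ a, nq (t a) ≠ 0) :
    FreeGroup ι →* (Matrix (Fin 3) (Fin 3) ℝ)ˣ := FreeGroup.lift fun a => rotU (t a) (h a)

lemma phi_mk {ι : Type*} (t : ι → Fin 4 → ℝ) (h : ∀ a, nq (t a) ≠ 0) (L : List (ι × Bool)) :
    ((phi t h (FreeGroup.mk L) : (Matrix (Fin 3) (Fin 3) ℝ)ˣ) : Matrix (Fin 3) (Fin 3) ℝ) =
      RW t L := by
  unfold phi
  rw [FreeGroup.lift_mk]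
  unfold RW
  induction L with
  | nil => simp
  | cons x L ih =>
    rw [List.map_cons, List.prod_cons, List.map_cons, List.prod_cons, Units.val_mul, ih]
    congr 1
    obtain ⟨a, b⟩ := x
    cases b
    · rfl
    · rfl

open Classical in
/-- the last letter of a word -/
noncomputable def lastL {ι : Type*} (u : FreeGroup ι) : Option ι :=
  u.toWord.getLast?.map Prod.fst

open Classical in
lemma lastL_mul {ι : Type*} (g : ι) (u : FreeGroup ι) :
    (lastL (FreeGroup.of g * u)).getD g = (lastL u).getD g := by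
  have hw : (FreeGroup.of g * u).toWord = FreeGroup.reduce ((g, true) :: u.toWord) := by
    conv_lhs => rw [← FreeGroup.mk_toWord (x := u)]
    rw [FreeGroup.of, FreeGroup.mul_mk, FreeGroup.toWord_mk]
    rfl
  unfold lastL
  rw [hw, FreeGroup.reduce.cons, FreeGroup.reduce_toWord]
  rcases h : u.toWord with _ | ⟨x, L⟩
  · simp
  · simp only
    split_ifs with hc
    · rcases L with _ | ⟨y, L⟩
      · simp [hc.1]
      · simp
    · simp

lemma lastL_ne {ι : Type*} (u : FreeGroup ι) (hu : u ≠ 1) : ∃ a, lastL u = some a := by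
  classical
  unfold lastL
  have h : u.toWord ≠ [] := fun h => hu (FreeGroup.toWord_eq_nil_iff.1 h)
  refine ⟨(u.toWord.getLast h).1, ?_⟩
  rw [List.getLast?_eq_some_getLast h]
  rfl

lemma card_col (W : Set (Fin 3 → ℝ)) (hcard : (2 : Cardinal) ^ #W ≤ 𝔠) (k : ℕ) :
    #(W → Fin k) ≤ 𝔠 := by
  rw [← power_def, mk_fin]
  have h1 : (k : Cardinal) ≤ 2 ^ (k : Cardinal) := (cantor _).le
  calc (k : Cardinal) ^ #W ≤ (2 ^ (k : Cardinal)) ^ #W := power_le_power_right h1
    _ = (2 ^ #W) ^ (k : Cardinal) := by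
        rw [← power_mul, ← power_mul, mul_comm]
    _ ≤ 𝔠 ^ (k : Cardinal) := power_le_power_right hcard
    _ ≤ 𝔠 ^ ℵ₀ := power_le_power_left continuum_ne_zero (natCast_lt_aleph0).le
    _ = 𝔠 := continuum_power_aleph0

/-- the points of the sphere, and everything else: colourings of `ℝ³` precoloured outside a
small set `W` are preserved by a rotation -/
theorem not_ext (W : Set (Fin 3 → ℝ)) (hW0 : ∀ w ∈ W, w ≠ 0) (hne : W.Nonempty)
    (hcard : (2 : Cardinal) ^ #W ≤ 𝔠) (k : ℕ) (hk : 0 < k) :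
    ∃ c : (Fin 3 → ℝ) → Fin k, ∀ c' : (Fin 3 → ℝ) → Fin k, (∀ x, x ∉ W → c' x = c x) →
      ∃ M : Matrix (Fin 3) (Fin 3) ℝ, Mᵀ * M = 1 ∧ M.det = 1 ∧ M ≠ 1 ∧
        ∀ x, c' (M *ᵥ x) = c' x := by
  classical
  -- the field
  have hWc : #W < 𝔠 := lt_of_lt_of_le (cantor _) hcard
  let S : Set ℂ := insert Complex.I (Set.range fun p : W × Fin 3 => ((p.1.1 p.2 : ℝ) : ℂ))
  have hS : #S < 𝔠 := by
    refine lt_of_le_of_lt (mk_insert_le) ?_
    refine add_lt_of_lt aleph0_le_continuum ?_ (lt_trans one_lt_aleph0 aleph0_lt_continuum)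
    refine lt_of_le_of_lt mk_range_le ?_
    rw [mk_prod]
    simp only [lift_id, mk_fin]
    exact mul_lt_of_lt aleph0_le_continuum hWc (lt_trans (natCast_lt_aleph0) aleph0_lt_continuum)
  let K : Subfield ℂ := Subfield.closure S
  have hK : #K < 𝔠 :=
    lt_of_le_of_lt (Subfield.cardinalMk_closure_le_max S) (max_lt hS aleph0_lt_continuum)
  have hI : Complex.I ∈ K := Subfield.subset_closure (Set.mem_insert _ _)
  have hWK : ∀ w ∈ W, ∀ i, ((w i : ℝ) : ℂ) ∈ K := fun w hw i =>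
    Subfield.subset_closure (Set.mem_insert_of_mem _ ⟨(⟨w, hw⟩, i), rfl⟩)
  obtain ⟨t, ht⟩ := exists_param K hK hI (W → Fin k) (card_col W hcard k)
  have hn : ∀ a, nq (t a) ≠ 0 := nq_ne K t ht
  obtain ⟨e⟩ : Nonempty ((W → Fin k) ↪ ℝ) := by
    rw [← Cardinal.le_def, mk_real]
    exact card_col W hcard k
  have key : ∀ u : FreeGroup (W → Fin k), u ≠ 1 → ∀ w ∈ W, ∀ w' ∈ W,
      ((phi t hn u : (Matrix (Fin 3) (Fin 3) ℝ)ˣ) : Matrix (Fin 3) (Fin 3) ℝ) *ᵥ w ≠ w' := by
    intro u hu w hw w' hw'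
    have hL : u.toWord ≠ [] := fun h => hu (FreeGroup.toWord_eq_nil_iff.1 h)
    have := word_ne e K hI t ht u.toWord hL (FreeGroup.isReduced_toWord) w w' (hW0 w hw)
      (hWK w hw) (hWK w' hw')
    rwa [← phi_mk t hn, FreeGroup.mk_toWord] at this
  let A : FreeGroup (W → Fin k) → (Fin 3 → ℝ) → (Fin 3 → ℝ) := fun u x =>
    ((phi t hn u : (Matrix (Fin 3) (Fin 3) ℝ)ˣ) : Matrix (Fin 3) (Fin 3) ℝ) *ᵥ x
  have A_mul : ∀ u v x, A (u * v) x = A u (A v x) := by
    intro u v x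
    simp only [A, map_mul, Units.val_mul, mulVec_mulVec]
  have A_one : ∀ x, A 1 x = x := by
    intro x
    simp [A]
  have A_inv : ∀ u x, A u⁻¹ (A u x) = x := by
    intro u x
    rw [← A_mul, inv_mul_cancel, A_one]
  have key' : ∀ u, u ≠ 1 → ∀ w ∈ W, ∀ w' ∈ W, A u w ≠ w' := key
  let Q : (Fin 3 → ℝ) → Prop := fun x => ∃ p : FreeGroup (W → Fin k) × W, A p.1 p.2.1 = x
  let z0 : Fin k := ⟨0, hk⟩
  let c : (Fin 3 → ℝ) → Fin k := fun x =>
    if h : Q x then ((lastL h.choose.1).getD (fun _ => z0)) h.choose.2 else z0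
  have uniq : ∀ u v : FreeGroup (W → Fin k), ∀ w w' : W, A u w.1 = A v w'.1 → u = v ∧ w = w' := by
    intro u v w w' h
    have h1 : A (v⁻¹ * u) w.1 = w'.1 := by
      rw [A_mul, h, A_inv]
    have h2 : v⁻¹ * u = 1 := by
      by_contra hne
      exact key' _ hne w.1 w.2 w'.1 w'.2 h1
    have h3 : u = v := by
      have := mul_eq_one_iff_eq_inv.1 h2
      rw [inv_eq_iff_eq_inv, inv_inv] at this
      exact this.symm
    refine ⟨h3, ?_⟩
    rw [h2, A_one] at h1
    exact Subtype.ext h1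
  refine ⟨c, fun c' hc' => ?_⟩
  let g : W → Fin k := fun w => c' w.1
  have main : ∀ u : FreeGroup (W → Fin k), ∀ w : W, c' (A u w.1) = (lastL u).getD g w := by
    intro u w
    by_cases hu : u = 1
    · subst hu
      rw [A_one]
      simp [lastL, g]
    · have hx : A u w.1 ∉ W := fun h => key' u hu w.1 w.2 _ h rfl
      rw [hc' _ hx]
      have hQ : Q (A u w.1) := ⟨(u, w), rfl⟩
      simp only [c]
      rw [dif_pos hQ]
      obtain ⟨h1, h2⟩ := uniq _ _ _ _ hQ.choose_spec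
      obtain ⟨a, ha⟩ := lastL_ne u hu
      rw [h1, h2, ha]
      rfl
  refine ⟨rot (t g), rot_orth _ (hn g), rot_det _ (hn g), ?_, ?_⟩
  · intro h1
    obtain ⟨w, hw⟩ := hne
    refine key' (FreeGroup.of g) ?_ w hw w hw ?_
    · exact FreeGroup.of_ne_one g
    · have : A (FreeGroup.of g) w = rot (t g) *ᵥ w := by
        simp only [A, phi, FreeGroup.lift_apply_of]
        rfl
      rw [this, h1, one_mulVec]
  · intro x
    have hA : ∀ x, rot (t g) *ᵥ x = A (FreeGroup.of g) x := by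
      intro x
      simp only [A, phi, FreeGroup.lift_apply_of]
      rfl
    rw [hA]
    by_cases hx : Q x
    · obtain ⟨⟨u, w⟩, rfl⟩ := hx
      simp only
      rw [← A_mul, main, main, lastL_mul]
    · have hx' : ¬ Q (A (FreeGroup.of g) x) := by
        rintro ⟨⟨u, w⟩, h⟩
        apply hx
        refine ⟨((FreeGroup.of g)⁻¹ * u, w), ?_⟩
        simp only at h ⊢
        rw [A_mul, h, A_inv]
      have hW : ∀ y, ¬ Q y → c' y = z0 := by
        intro y hy
        have hyW : y ∉ W := fun h => hy ⟨(1, ⟨y, h⟩), A_one y⟩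
        rw [hc' y hyW]
        simp only [c]
        rw [dif_neg hy]
      rw [hW _ hx, hW _ hx']

end Pool.Agent.Q303.Sph
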