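import Pool.Agent.Q303.Sph.Word

set_option autoImplicit false

/-!
# Generic rotations move every point of a small set off the set
-/

open Matrix

namespace Pool.Agent.Q303.Sph

/-- the norm of a real quaternion -/
def nq (t : Fin 4 → ℝ) : ℝ := t 0 ^ 2 + t 1 ^ 2 + t 2 ^ 2 + t 3 ^ 2

/-- the rotation matrix of a quaternion, times the norm -/
def rotN (t : Fin 4 → ℝ) : Matrix (Fin 3) (Fin 3) ℝ :=
  !![t 0 ^ 2 + t 1 ^ 2 - t 2 ^ 2 - t 3 ^ 2, 2 * (t 1 * t 2 - t 0 * t 3), 2 * (t 1 * t 3 + t 0 * t 2);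
    2 * (t 1 * t 2 + t 0 * t 3), t 0 ^ 2 - t 1 ^ 2 + t 2 ^ 2 - t 3 ^ 2, 2 * (t 2 * t 3 - t 0 * t 1);
    2 * (t 1 * t 3 - t 0 * t 2), 2 * (t 2 * t 3 + t 0 * t 1), t 0 ^ 2 - t 1 ^ 2 - t 2 ^ 2 + t 3 ^ 2]

/-- the rotation matrix of a quaternion -/
noncomputable def rot (t : Fin 4 → ℝ) : Matrix (Fin 3) (Fin 3) ℝ := (nq t)⁻¹ • rotN t

lemma rotN_mul (t : Fin 4 → ℝ) : (rotN t)ᵀ * rotN t = (nq t) ^ 2 • (1 : Matrix (Fin 3) (Fin 3) ℝ) := by
  ext i j
  fin_cases i <;> fin_cases j <;>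
    simp [rotN, nq, Matrix.mul_apply, Fin.sum_univ_three] <;> ring

lemma rotN_det (t : Fin 4 → ℝ) : det (rotN t) = (nq t) ^ 3 := by
  rw [det_fin_three]
  simp [rotN, nq]
  ring

lemma nq_cj (t : Fin 4 → ℝ) : nq (cj t) = nq t := by
  simp [nq, cj]

lemma rotN_cj (t : Fin 4 → ℝ) : rotN (cj t) = (rotN t)ᵀ := by
  ext i j
  fin_cases i <;> fin_cases j <;> simp [rotN, cj] <;> ring

lemma rot_cj (t : Fin 4 → ℝ) : rot (cj t) = (rot t)ᵀ := by
  unfold rot
  rw [nq_cj, rotN_cj, transpose_smul]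

lemma rot_orth (t : Fin 4 → ℝ) (h : nq t ≠ 0) : (rot t)ᵀ * rot t = 1 := by
  unfold rot
  rw [transpose_smul, Matrix.smul_mul, Matrix.mul_smul, rotN_mul, smul_smul, smul_smul]
  have : (nq t)⁻¹ * (nq t)⁻¹ * (nq t) ^ 2 = 1 := by field_simp
  rw [this, one_smul]

lemma rot_det (t : Fin 4 → ℝ) (h : nq t ≠ 0) : det (rot t) = 1 := by
  unfold rot
  rw [det_smul, rotN_det]
  simp
  field_simp

/-- the rotation of a quaternion, as a unit -/
noncomputable def rotU (t : Fin 4 → ℝ) (h : nq t ≠ 0) : (Matrix (Fin 3) (Fin 3) ℝ)ˣ where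
  val := rot t
  inv := rot (cj t)
  val_inv := by
    have := rot_orth (cj t) (by rwa [nq_cj])
    rwa [rot_cj, transpose_transpose, ← rot_cj] at this
  inv_val := by rw [rot_cj]; exact rot_orth t h

/-- complexification -/
def oc {n : ℕ} (v : Fin n → ℝ) : Fin n → ℂ := fun i => (v i : ℂ)

lemma qm_det (t : Fin 4 → ℝ) : det (qm Complex.I (oc t)) = (nq t : ℂ) := by
  rw [det_fin_two]
  simp only [qm, oc, nq, Matrix.of_apply, Matrix.cons_val', Matrix.cons_val_zero,
    Matrix.cons_val_one, Matrix.cons_val_fin_one]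
  push_cast
  have hI : Complex.I ^ 2 = -1 := Complex.I_sq
  linear_combination (-(t 1 : ℂ) ^ 2 - (t 3 : ℂ) ^ 2) * hI

lemma act (t : Fin 4 → ℝ) (h : nq t ≠ 0) (x : Fin 3 → ℝ) :
    qm Complex.I (oc t) * pm Complex.I (oc x) * adjugate (qm Complex.I (oc t)) =
      det (qm Complex.I (oc t)) • pm Complex.I (oc (rot t *ᵥ x)) := by
  have hI : Complex.I ^ 2 = -1 := Complex.I_sq
  have hI3 : Complex.I ^ 3 = -Complex.I := by
    rw [pow_succ, hI]; ring
  have e : det (qm Complex.I (oc t)) • pm Complex.I (oc (rot t *ᵥ x)) =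
      pm Complex.I (oc (rotN t *ᵥ x)) := by
    rw [qm_det]
    have h1 : ∀ i, (nq t : ℂ) * oc (rot t *ᵥ x) i = oc (rotN t *ᵥ x) i := by
      intro i
      unfold oc rot
      rw [smul_mulVec]
      simp only [Pi.smul_apply, smul_eq_mul]
      push_cast
      rw [← mul_assoc, mul_inv_cancel₀ (by exact_mod_cast h), one_mul]
    have h0 := h1 0
    have h1' := h1 1
    have h2 := h1 2
    ext a b
    fin_cases a <;> fin_cases b <;> simp only [pm, Matrix.smul_apply, Matrix.of_apply, smul_eq_mul,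
      Matrix.cons_val', Matrix.cons_val_zero, Matrix.cons_val_one, Matrix.cons_val_fin_one,
      Fin.zero_eta, Fin.mk_one] 
    · linear_combination Complex.I * h0
    · linear_combination h1' + Complex.I * h2
    · linear_combination -h1' + Complex.I * h2
    · linear_combination -Complex.I * h0
  rw [e, adjugate_fin_two]
  ext a b
  fin_cases a <;> fin_cases b <;>
    simp [pm, qm, oc, rotN, Matrix.mul_apply, Matrix.mulVec, dotProduct, Fin.sum_univ_two,
      Fin.sum_univ_three] <;> ring_nf <;> simp only [hI, hI3] <;> ring_nf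

/-- the rotation of a word -/
noncomputable def RW {ι : Type*} (t : ι → Fin 4 → ℝ) (L : List (ι × Bool)) :
    Matrix (Fin 3) (Fin 3) ℝ := (L.map fun x => rot (tl t x)).prod

lemma oc_tl {ι : Type*} (t : ι → Fin 4 → ℝ) (x : ι × Bool) :
    tl (fun a => oc (t a)) x = oc (tl t x) := by
  have := tl_map Complex.ofRealHom t x
  exact this.symm

lemma nq_tl {ι : Type*} (t : ι → Fin 4 → ℝ) (ht : ∀ a, nq (t a) ≠ 0) (x : ι × Bool) :
    nq (tl t x) ≠ 0 := by
  unfold tl
  split_ifs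
  · exact ht _
  · rw [nq_cj]; exact ht _

lemma act_word {ι : Type*} (t : ι → Fin 4 → ℝ) (ht : ∀ a, nq (t a) ≠ 0) (x : Fin 3 → ℝ)
    (L : List (ι × Bool)) :
    U Complex.I (fun a => oc (t a)) L * pm Complex.I (oc x) *
      adjugate (U Complex.I (fun a => oc (t a)) L) =
      det (U Complex.I (fun a => oc (t a)) L) • pm Complex.I (oc (RW t L *ᵥ x)) := by
  induction L with
  | nil => simp [U_nil, RW]
  | cons y L ih =>
    rw [U_cons, adjugate_mul_distrib, det_mul]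
    have e : RW t (y :: L) *ᵥ x = rot (tl t y) *ᵥ (RW t L *ᵥ x) := by
      rw [mulVec_mulVec]
      simp [RW]
    rw [e]
    set q := qm Complex.I (tl (fun a => oc (t a)) y) with hq
    set V := U Complex.I (fun a => oc (t a)) L with hV
    have : q * V * pm Complex.I (oc x) * (adjugate V * adjugate q) =
        q * (V * pm Complex.I (oc x) * adjugate V) * adjugate q := by
      simp only [mul_assoc]
    rw [this, ih, hq, oc_tl, Matrix.mul_smul, Matrix.smul_mul, act _ (nq_tl t ht y), smul_smul,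
      mul_comm]

theorem word_ne {ι : Type*} (e : ι ↪ ℝ) (K : Subfield ℂ) (hI : Complex.I ∈ K)
    (t : ι → Fin 4 → ℝ)
    (ht : AlgebraicIndependent K (fun p : ι × Fin 4 => (t p.1 p.2 : ℂ)))
    (L : List (ι × Bool)) (hL : L ≠ [])
    (hred : L.IsChain (fun a b => a.1 = b.1 → a.2 = b.2)) (w w' : Fin 3 → ℝ) (hw : w ≠ 0)
    (hwK : ∀ i, (w i : ℂ) ∈ K) (hwK' : ∀ i, (w' i : ℂ) ∈ K) : RW t L *ᵥ w ≠ w' := by
  intro heq
  have hn : ∀ a, nq (t a) ≠ 0 := by
    intro a h
    have h0 : (t a 0 : ℂ) ≠ 0 := ht.ne_zero (a, 0)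
    apply h0
    have : t a 0 = 0 := by
      unfold nq at h
      nlinarith [sq_nonneg (t a 0), sq_nonneg (t a 1), sq_nonneg (t a 2), sq_nonneg (t a 3)]
    rw [this]; simp
  let P := MvPolynomial (ι × Fin 4) K
  let j : P := MvPolynomial.C ⟨Complex.I, hI⟩
  let X : ι → Fin 4 → P := fun a i => MvPolynomial.X (a, i)
  let wP : Fin 3 → P := fun i => MvPolynomial.C ⟨(w i : ℂ), hwK i⟩
  let wP' : Fin 3 → P := fun i => MvPolynomial.C ⟨(w' i : ℂ), hwK' i⟩
  have key : ∀ s : ι → Fin 4 → ℂ,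
      ((MvPolynomial.aeval (fun p : ι × Fin 4 => s p.1 p.2) : P →ₐ[K] ℂ) : P →+* ℂ).mapMatrix
        (E j X L wP wP') = E Complex.I s L (oc w) (oc w') := by
    intro s
    rw [E_map]
    congr 1
    · exact MvPolynomial.aeval_C _ _
    · funext a i
      exact MvPolynomial.aeval_X _ _
    · funext i
      exact MvPolynomial.aeval_C _ _
    · funext i
      exact MvPolynomial.aeval_C _ _
  have h0 : E Complex.I (fun a => oc (t a)) L (oc w) (oc w') = 0 := by
    unfold E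
    rw [act_word t hn, heq, sub_self]
  have hD : E j X L wP wP' = 0 := by
    have h1 := key (fun a => oc (t a))
    rw [h0] at h1
    refine Matrix.ext fun a b => ?_
    have h2 := congrFun (congrFun h1 a) b
    have h3 : (MvPolynomial.aeval (fun p : ι × Fin 4 => ((t p.1 p.2 : ℝ) : ℂ)) : P →ₐ[K] ℂ)
        (E j X L wP wP' a b) = 0 := h2
    exact (map_eq_zero_iff _ ht).1 h3
  obtain ⟨s, hs⟩ := exists_tau e L hL hred w w' hw
  apply hs
  have := key s
  rw [hD, map_zero] at this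
  exact this.symm

end Pool.Agent.Q303.Sph
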