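import Mathlib

set_option autoImplicit false

/-!
# Thin subsets of the sphere and extension of precolourings
-/

open Matrix Cardinal Set

namespace Pool.Agent.Q303.Sph

abbrev V3 := Fin 3 → ℝ
abbrev M3 := Matrix (Fin 3) (Fin 3) ℝ

/-- the cross product -/
def cr (a b : V3) : V3 :=
  ![a 1 * b 2 - a 2 * b 1, a 2 * b 0 - a 0 * b 2, a 0 * b 1 - a 1 * b 0]

lemma cr_adj (M : M3) (a b : V3) : cr (M *ᵥ a) (M *ᵥ b) = (adjugate M)ᵀ *ᵥ cr a b := by
  rw [adjugate_fin_three]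
  funext i
  fin_cases i <;>
    simp [cr, Matrix.mulVec, dotProduct, Fin.sum_univ_three] <;> ring

lemma det_sq {M : M3} (h : Mᵀ * M = 1) : M.det * M.det = 1 := by
  have := congrArg det h
  rwa [det_mul, det_transpose, det_one] at this

lemma adj_orth {M : M3} (h : Mᵀ * M = 1) : adjugate M = M.det • Mᵀ := by
  have h' : M * Mᵀ = 1 := mul_eq_one_comm.1 h
  calc adjugate M = adjugate M * (M * Mᵀ) := by rw [h', mul_one]
    _ = (adjugate M * M) * Mᵀ := by rw [mul_assoc]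
    _ = _ := by rw [adjugate_mul]; simp

lemma cr_orth {M : M3} (h : Mᵀ * M = 1) (a b : V3) :
    M *ᵥ cr a b = M.det • cr (M *ᵥ a) (M *ᵥ b) := by
  rw [cr_adj, adj_orth h, transpose_smul, transpose_transpose, smul_mulVec, smul_smul, det_sq h,
    one_smul]

lemma row_zero (r a b : V3) (hab : cr a b ≠ 0) (h1 : r 0 * a 0 + r 1 * a 1 + r 2 * a 2 = 0)
    (h2 : r 0 * b 0 + r 1 * b 1 + r 2 * b 2 = 0)
    (h3 : r 0 * cr a b 0 + r 1 * cr a b 1 + r 2 * cr a b 2 = 0) : r = 0 := by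
  have hn : cr a b 0 ^ 2 + cr a b 1 ^ 2 + cr a b 2 ^ 2 ≠ 0 := by
    intro h
    apply hab
    have e0 : cr a b 0 = 0 := by
      nlinarith [sq_nonneg (cr a b 0), sq_nonneg (cr a b 1), sq_nonneg (cr a b 2)]
    have e1 : cr a b 1 = 0 := by
      nlinarith [sq_nonneg (cr a b 0), sq_nonneg (cr a b 1), sq_nonneg (cr a b 2)]
    have e2 : cr a b 2 = 0 := by
      nlinarith [sq_nonneg (cr a b 0), sq_nonneg (cr a b 1), sq_nonneg (cr a b 2)]
    funext i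
    fin_cases i
    · exact e0
    · exact e1
    · exact e2
  set n := cr a b with hn'
  have n0 : n 0 = a 1 * b 2 - a 2 * b 1 := by simp [hn', cr]
  have n1 : n 1 = a 2 * b 0 - a 0 * b 2 := by simp [hn', cr]
  have n2 : n 2 = a 0 * b 1 - a 1 * b 0 := by simp [hn', cr]
  funext i
  have key : (n 0 ^ 2 + n 1 ^ 2 + n 2 ^ 2) * r i = 0 := by
    fin_cases i
    · have e : (n 0 ^ 2 + n 1 ^ 2 + n 2 ^ 2) * r 0 =
        n 0 * (r 0 * n 0 + r 1 * n 1 + r 2 * n 2) + (n 1 * (r 0 * n 1 - r 1 * n 0) -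
          n 2 * (r 2 * n 0 - r 0 * n 2)) := by ring
      have e2 : r 0 * n 1 - r 1 * n 0 = a 2 * (r 0 * b 0 + r 1 * b 1 + r 2 * b 2) -
          b 2 * (r 0 * a 0 + r 1 * a 1 + r 2 * a 2) := by rw [n0, n1]; ring
      have e3 : r 2 * n 0 - r 0 * n 2 = a 1 * (r 0 * b 0 + r 1 * b 1 + r 2 * b 2) -
          b 1 * (r 0 * a 0 + r 1 * a 1 + r 2 * a 2) := by rw [n0, n2]; ring
      show (n 0 ^ 2 + n 1 ^ 2 + n 2 ^ 2) * r 0 = 0
      rw [e, e2, e3, h1, h2, h3]; ring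
    · have e : (n 0 ^ 2 + n 1 ^ 2 + n 2 ^ 2) * r 1 =
        n 1 * (r 0 * n 0 + r 1 * n 1 + r 2 * n 2) + (n 2 * (r 1 * n 2 - r 2 * n 1) -
          n 0 * (r 0 * n 1 - r 1 * n 0)) := by ring
      have e2 : r 0 * n 1 - r 1 * n 0 = a 2 * (r 0 * b 0 + r 1 * b 1 + r 2 * b 2) -
          b 2 * (r 0 * a 0 + r 1 * a 1 + r 2 * a 2) := by rw [n0, n1]; ring
      have e3 : r 1 * n 2 - r 2 * n 1 = a 0 * (r 0 * b 0 + r 1 * b 1 + r 2 * b 2) -
          b 0 * (r 0 * a 0 + r 1 * a 1 + r 2 * a 2) := by rw [n1, n2]; ring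
      show (n 0 ^ 2 + n 1 ^ 2 + n 2 ^ 2) * r 1 = 0
      rw [e, e2, e3, h1, h2, h3]; ring
    · have e : (n 0 ^ 2 + n 1 ^ 2 + n 2 ^ 2) * r 2 =
        n 2 * (r 0 * n 0 + r 1 * n 1 + r 2 * n 2) + (n 0 * (r 2 * n 0 - r 0 * n 2) -
          n 1 * (r 1 * n 2 - r 2 * n 1)) := by ring
      have e2 : r 2 * n 0 - r 0 * n 2 = a 1 * (r 0 * b 0 + r 1 * b 1 + r 2 * b 2) -
          b 1 * (r 0 * a 0 + r 1 * a 1 + r 2 * a 2) := by rw [n0, n2]; ring
      have e3 : r 1 * n 2 - r 2 * n 1 = a 0 * (r 0 * b 0 + r 1 * b 1 + r 2 * b 2) -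
          b 0 * (r 0 * a 0 + r 1 * a 1 + r 2 * a 2) := by rw [n1, n2]; ring
      show (n 0 ^ 2 + n 1 ^ 2 + n 2 ^ 2) * r 2 = 0
      rw [e, e2, e3, h1, h2, h3]; ring
  exact (mul_eq_zero.1 key).resolve_left hn

lemma orth_unique {M N : M3} (hM : Mᵀ * M = 1) (hN : Nᵀ * N = 1) (hd : M.det = N.det) (a b : V3)
    (hab : cr a b ≠ 0) (ha : M *ᵥ a = N *ᵥ a) (hb : M *ᵥ b = N *ᵥ b) : M = N := by
  have hc : M *ᵥ cr a b = N *ᵥ cr a b := by
    rw [cr_orth hM, cr_orth hN, hd, ha, hb]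
  have e : ∀ (v : V3), M *ᵥ v = N *ᵥ v → ∀ i,
      (M i 0 - N i 0) * v 0 + (M i 1 - N i 1) * v 1 + (M i 2 - N i 2) * v 2 = 0 := by
    intro v hv i
    have := congrFun hv i
    simp only [Matrix.mulVec, dotProduct, Fin.sum_univ_three] at this
    linear_combination this
  have hr : ∀ i, (fun j => M i j - N i j) = 0 := fun i =>
    row_zero _ a b hab (e a ha i) (e b hb i) (e _ hc i)
  ext i j
  have := congrFun (hr i) j
  simp only [Pi.zero_apply] at this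
  linarith

lemma sph_dep {a b : V3} (ha : a 0 ^ 2 + a 1 ^ 2 + a 2 ^ 2 = 1) (hb : b 0 ^ 2 + b 1 ^ 2 + b 2 ^ 2 = 1)
    (h : cr a b = 0) : b = a ∨ b = -a := by
  have e0 : a 1 * b 2 - a 2 * b 1 = 0 := by simpa [cr] using congrFun h 0
  have e1 : a 2 * b 0 - a 0 * b 2 = 0 := by simpa [cr] using congrFun h 1
  have e2 : a 0 * b 1 - a 1 * b 0 = 0 := by simpa [cr] using congrFun h 2
  set d := a 0 * b 0 + a 1 * b 1 + a 2 * b 2 with hd
  have hd2 : d ^ 2 = 1 := by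
    have : d ^ 2 = (a 0 ^ 2 + a 1 ^ 2 + a 2 ^ 2) * (b 0 ^ 2 + b 1 ^ 2 + b 2 ^ 2) -
        ((a 1 * b 2 - a 2 * b 1) ^ 2 + (a 2 * b 0 - a 0 * b 2) ^ 2 +
          (a 0 * b 1 - a 1 * b 0) ^ 2) := by rw [hd]; ring
    rw [this, ha, hb, e0, e1, e2]; ring
  have hb0 : b 0 = d * a 0 := by
    rw [hd]
    linear_combination (-b 0) * ha + a 2 * e1 - a 1 * e2
  have hb1 : b 1 = d * a 1 := by
    rw [hd]
    linear_combination (-b 1) * ha + a 0 * e2 - a 2 * e0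
  have hb2 : b 2 = d * a 2 := by
    rw [hd]
    linear_combination (-b 2) * ha + a 1 * e0 - a 0 * e1
  have hd3 : d = 1 ∨ d = -1 := mul_self_eq_one_iff.1 (by rw [← sq]; exact hd2)
  rcases hd3 with h | h
  · left
    rw [h, one_mul] at hb0 hb1 hb2
    funext i
    fin_cases i
    · exact hb0
    · exact hb1
    · exact hb2
  · right
    rw [h, neg_one_mul] at hb0 hb1 hb2
    funext i
    fin_cases i
    · exact hb0
    · exact hb1
    · exact hb2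

lemma indep_of_infinite (S : Set V3) (hS : S.Infinite)
    (hsph : ∀ x ∈ S, x 0 ^ 2 + x 1 ^ 2 + x 2 ^ 2 = 1) : ∃ a ∈ S, ∃ b ∈ S, cr a b ≠ 0 := by
  obtain ⟨a, ha⟩ := hS.nonempty
  have h2 : (S \ {a, -a}).Infinite := hS.sdiff (Set.toFinite _)
  obtain ⟨b, hb, hb'⟩ := h2.nonempty
  refine ⟨a, ha, b, hb, fun h => hb' ?_⟩
  rcases sph_dep (hsph a ha) (hsph b hb) h with h | h
  · rw [h]; simp
  · rw [h]; simp

/-- the closure of `A` under the isometries determined by points of `A` -/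
def cl (A : Set V3) : Set V3 :=
  A ∪ {x | ∃ M : M3, Mᵀ * M = 1 ∧ (∃ a ∈ A, ∃ b ∈ A, cr a b ≠ 0 ∧ M *ᵥ a ∈ A ∧ M *ᵥ b ∈ A) ∧
    ∃ z ∈ A, x = M *ᵥ z ∨ M *ᵥ x = z}

open Classical in
/-- the isometry mapping `a` to `a'` and `b` to `b'`, of determinant `1` or `-1` -/
noncomputable def iso (a b a' b' : V3) (e : Bool) : M3 :=
  if h : ∃ M : M3, Mᵀ * M = 1 ∧ M.det = (if e then 1 else -1) ∧ M *ᵥ a = a' ∧ M *ᵥ b = b'
  then h.choose else 1

lemma eq_iso {M : M3} (hM : Mᵀ * M = 1) {a b : V3} (hab : cr a b ≠ 0) :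
    ∃ e, M = iso a b (M *ᵥ a) (M *ᵥ b) e := by
  have hd : M.det = 1 ∨ M.det = -1 := mul_self_eq_one_iff.1 (det_sq hM)
  have : ∃ e : Bool, M.det = (if e then 1 else -1) := by
    rcases hd with h | h
    · exact ⟨true, by simpa using h⟩
    · exact ⟨false, by simpa using h⟩
  obtain ⟨e, he⟩ := this
  refine ⟨e, ?_⟩
  have h : ∃ N : M3, Nᵀ * N = 1 ∧ N.det = (if e then 1 else -1) ∧ N *ᵥ a = M *ᵥ a ∧
      N *ᵥ b = M *ᵥ b := ⟨M, hM, he, rfl, rfl⟩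
  unfold iso
  rw [dif_pos h]
  obtain ⟨h1, h2, h3, h4⟩ := h.choose_spec
  exact orth_unique hM h1 (by rw [he, h2]) a b hab h3.symm h4.symm

lemma cl_card (κ : Cardinal.{0}) (hκ : ℵ₀ ≤ κ) (A : Set V3) (hA : #A < κ) : #(cl A) < κ := by
  let G : (A × A) × (A × A) × Bool × A × Bool → V3 := fun p =>
    if p.2.2.2.2 then iso p.1.1.1 p.1.2.1 p.2.1.1.1 p.2.1.2.1 p.2.2.1 *ᵥ p.2.2.2.1.1
    else (iso p.1.1.1 p.1.2.1 p.2.1.1.1 p.2.1.2.1 p.2.2.1)ᵀ *ᵥ p.2.2.2.1.1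
  have hsub : cl A ⊆ A ∪ Set.range G := by
    rintro x (hx | ⟨M, hM, ⟨a, ha, b, hb, hab, ha', hb'⟩, z, hz, hxz⟩)
    · exact Or.inl hx
    · right
      obtain ⟨e, he⟩ := eq_iso hM hab
      rcases hxz with h | h
      · refine ⟨((⟨a, ha⟩, ⟨b, hb⟩), (⟨_, ha'⟩, ⟨_, hb'⟩), e, ⟨z, hz⟩, true), ?_⟩
        simp only [G, if_true]
        rw [← he, h]
      · refine ⟨((⟨a, ha⟩, ⟨b, hb⟩), (⟨_, ha'⟩, ⟨_, hb'⟩), e, ⟨z, hz⟩, false), ?_⟩
        simp only [G]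
        rw [if_neg (by simp), ← he, ← h, mulVec_mulVec, hM, one_mulVec]
  refine lt_of_le_of_lt (mk_le_mk_of_subset hsub) ?_
  refine lt_of_le_of_lt (mk_union_le _ _) ?_
  refine add_lt_of_lt hκ hA (lt_of_le_of_lt mk_range_le ?_)
  simp only [mk_prod, lift_id]
  have hb : #Bool < κ := lt_of_lt_of_le (by simp) hκ
  exact mul_lt_of_lt hκ (mul_lt_of_lt hκ hA hA) (mul_lt_of_lt hκ (mul_lt_of_lt hκ hA hA)
    (mul_lt_of_lt hκ hb (mul_lt_of_lt hκ hA hb)))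

lemma exists_seq {X ι : Type} [LinearOrder ι] [WellFoundedLT ι] (P : Set X → X → Prop)
    (h : ∀ (i : ι) (g : Set.Iio i → X), ∃ x, P (Set.range g) x) :
    ∃ f : ι → X, ∀ i, P (f '' Set.Iio i) (f i) := by
  let F : (i : ι) → ((j : ι) → j < i → X) → X := fun i g => (h i (fun j => g j.1 j.2)).choose
  let f : ι → X := (wellFounded_lt (α := ι)).fix F
  refine ⟨f, fun i => ?_⟩
  have h1 : f i = F i (fun j _ => f j) := (wellFounded_lt (α := ι)).fix_eq F i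
  rw [h1]
  have h2 := (h i (fun j : Set.Iio i => f j)).choose_spec
  have h3 : Set.range (fun j : Set.Iio i => f j) = f '' Set.Iio i := by
    ext x; simp
  rw [← h3]
  exact h2

/-- points mapped into the sequence are mostly fixed -/
lemma fixed_of_many (κ : Cardinal.{0}) (hκ : ℵ₀ ≤ κ) (f : κ.ord.ToType → V3)
    (hsph : ∀ i, f i 0 ^ 2 + f i 1 ^ 2 + f i 2 ^ 2 = 1)
    (hf : ∀ i, f i ∉ cl (f '' Set.Iio i)) (M : M3) (hM : Mᵀ * M = 1)
    (hbig : κ ≤ #{i | ∃ j, M *ᵥ f i = f j}) : κ ≤ #{i | M *ᵥ f i = f i} := by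
  by_contra hlt
  rw [not_le] at hlt
  have hinj : ∀ i j, i < j → f i ≠ f j := by
    intro i j hij h
    apply hf j
    left
    exact ⟨i, hij, h⟩
  have hinj' : Function.Injective f := by
    intro i j h
    rcases lt_trichotomy i j with h1 | h1 | h1
    · exact absurd h (hinj i j h1)
    · exact h1
    · exact absurd h.symm (hinj j i h1)
  set E' : Set κ.ord.ToType := {i | (∃ j, M *ᵥ f i = f j) ∧ M *ᵥ f i ≠ f i} with hE'
  have hE : κ ≤ #E' := by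
    by_contra h
    rw [not_le] at h
    have hsub : {i | ∃ j, M *ᵥ f i = f j} ⊆ {i | M *ᵥ f i = f i} ∪ E' := by
      intro i hi
      by_cases h1 : M *ᵥ f i = f i
      · left; exact h1
      · right; exact ⟨hi, h1⟩
    have := lt_of_le_of_lt ((mk_le_mk_of_subset hsub).trans (mk_union_le _ _))
      (add_lt_of_lt hκ hlt h)
    exact absurd hbig (not_le.2 this)
  have hinf : (f '' E').Infinite := by
    refine Set.Infinite.image hinj'.injOn ?_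
    rw [← Set.infinite_coe_iff, Cardinal.infinite_iff]
    exact hκ.trans hE
  obtain ⟨a, ⟨i1, hi1, rfl⟩, b, ⟨i2, hi2, rfl⟩, hab⟩ :=
    indep_of_infinite (f '' E') hinf (by rintro x ⟨i, _, rfl⟩; exact hsph i)
  obtain ⟨⟨j1, hj1⟩, -⟩ := hi1
  obtain ⟨⟨j2, hj2⟩, -⟩ := hi2
  obtain ⟨δ, hδ1, hδ2, hδ3, hδ4⟩ : ∃ δ, i1 ≤ δ ∧ i2 ≤ δ ∧ j1 ≤ δ ∧ j2 ≤ δ :=
    ⟨max (max i1 i2) (max j1 j2), by simp, by simp, by simp, by simp⟩
  have hIic : #(Set.Iic δ) < κ := by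
    have : Set.Iic δ ⊆ insert δ (Set.Iio δ) := by
      intro x hx
      rcases lt_or_eq_of_le (show x ≤ δ from hx) with h | h
      · right; exact h
      · left; exact h
    refine lt_of_le_of_lt ((mk_le_mk_of_subset this).trans mk_insert_le) ?_
    exact add_lt_of_lt hκ (mk_Iio_toType_ord_lt δ) (lt_of_lt_of_le one_lt_aleph0 hκ)
  obtain ⟨i, hi, hiδ⟩ : ∃ i ∈ E', δ < i := by
    by_contra h
    push Not at h
    have : E' ⊆ Set.Iic δ := fun i hi => h i hi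
    exact absurd (hE.trans (mk_le_mk_of_subset this)) (not_le.2 hIic)
  obtain ⟨⟨j, hj⟩, hne⟩ := hi
  rcases lt_trichotomy j i with h | h | h
  · apply hf i
    right
    refine ⟨M, hM, ⟨f i1, ⟨i1, lt_of_le_of_lt hδ1 hiδ, rfl⟩, f i2, ⟨i2, lt_of_le_of_lt hδ2 hiδ, rfl⟩,
      hab, ⟨j1, lt_of_le_of_lt hδ3 hiδ, hj1.symm⟩, ⟨j2, lt_of_le_of_lt hδ4 hiδ, hj2.symm⟩⟩,
      f j, ⟨j, h, rfl⟩, Or.inr hj⟩
  · rw [h] at hj
    exact hne hj
  · apply hf j
    right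
    have h' : δ < j := hiδ.trans h
    refine ⟨M, hM, ⟨f i1, ⟨i1, lt_of_le_of_lt hδ1 h', rfl⟩, f i2, ⟨i2, lt_of_le_of_lt hδ2 h', rfl⟩,
      hab, ⟨j1, lt_of_le_of_lt hδ3 h', hj1.symm⟩, ⟨j2, lt_of_le_of_lt hδ4 h', hj2.symm⟩⟩,
      f i, ⟨i, h, rfl⟩, Or.inl hj.symm⟩

/-- the choice of the subset in which the sequence is taken -/
lemma exists_base (κ : Cardinal.{0}) (hκ : ℵ₀ ≤ κ) (Γ : Set M3) (hΓ : ∀ M ∈ Γ, Mᵀ * M = 1)
    (W : Set V3) (hsph : ∀ w ∈ W, w 0 ^ 2 + w 1 ^ 2 + w 2 ^ 2 = 1) (hW : κ ≤ #W)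
    (htriv : ∀ M ∈ Γ, (∀ w ∈ W, M *ᵥ w = w) → M = 1) (k : ℕ) (hk : 2 ≤ k) (c : V3 → Fin k) :
    ∃ W1 ⊆ W, κ ≤ #W1 ∧ ∃ c0 : V3 → Fin k, (∀ x, x ∉ W → c0 x = c x) ∧
      ∀ M ∈ Γ, M ≠ 1 → κ ≤ #{w | w ∈ W1 ∧ M *ᵥ w = w} →
        ∃ x ∈ W, x ∉ W1 ∧ M *ᵥ x ∉ W1 ∧ c0 (M *ᵥ x) ≠ c0 x := by
  by_cases hex : ∃ M0 ∈ Γ, M0 ≠ 1 ∧ κ ≤ #{w | w ∈ W ∧ M0 *ᵥ w = w}
  · obtain ⟨M0, hM0, hne, hbig⟩ := hex
    obtain ⟨ws, hws, hws'⟩ : ∃ w ∈ W, M0 *ᵥ w ≠ w := by
      by_contra h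
      push Not at h
      exact hne (htriv M0 hM0 h)
    let v : Fin k := if c (M0 *ᵥ ws) = ⟨0, by omega⟩ then ⟨1, by omega⟩ else ⟨0, by omega⟩
    have hv : v ≠ c (M0 *ᵥ ws) := by
      simp only [v]
      split_ifs with h
      · rw [h]
        intro h'
        have := congrArg Fin.val h'
        simp at this
      · exact fun h' => h h'.symm
    refine ⟨{w | w ∈ W ∧ M0 *ᵥ w = w}, fun w hw => hw.1, hbig, fun x => if x = ws then v else c x,
      fun x hx => ?_, fun M hM hM1 hMbig => ?_⟩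
    · exact if_neg (by rintro rfl; exact hx hws)
    · -- `M = M0`
      have hMM : M = M0 := by
        set T : Set V3 := {w | w ∈ {w | w ∈ W ∧ M0 *ᵥ w = w} ∧ M *ᵥ w = w} with hT
        have hinf : T.Infinite := by
          rw [← Set.infinite_coe_iff, Cardinal.infinite_iff]
          exact hκ.trans hMbig
        obtain ⟨a, ha, b, hb, hab⟩ := indep_of_infinite T hinf (fun x hx => hsph x hx.1.1)
        have ha0 : M0 *ᵥ a = a := ha.1.2
        have hb0 : M0 *ᵥ b = b := hb.1.2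
        have hdet : ∀ N : M3, N ∈ Γ → N ≠ 1 → N *ᵥ a = a → N *ᵥ b = b → N.det = -1 := by
          intro N hN hN1 h1 h2
          rcases (mul_self_eq_one_iff.1 (det_sq (hΓ N hN))) with h | h
          · exfalso
            apply hN1
            refine orth_unique (hΓ N hN) (by simp) (by rw [h, det_one]) a b hab ?_ ?_
            · rw [h1, one_mulVec]
            · rw [h2, one_mulVec]
          · exact h
        refine orth_unique (hΓ M hM) (hΓ M0 hM0) ?_ a b hab ?_ ?_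
        · rw [hdet M hM hM1 ha.2 hb.2, hdet M0 hM0 hne ha0 hb0]
        · rw [ha.2, ha0]
        · rw [hb.2, hb0]
      subst hMM
      refine ⟨ws, hws, fun h => hws' h.2, fun h => hws' ?_, ?_⟩
      · have h2 := h.2
        have h3 : Mᵀ *ᵥ (M *ᵥ (M *ᵥ ws)) = Mᵀ *ᵥ (M *ᵥ ws) := by rw [h2]
        rwa [mulVec_mulVec, hΓ M hM, one_mulVec, mulVec_mulVec, hΓ M hM, one_mulVec] at h3
      · simp only [if_neg hws', if_true]
        exact hv.symm
  · refine ⟨W, Set.Subset.refl _, hW, c, fun x _ => rfl, fun M hM hM1 hMbig => ?_⟩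
    exact absurd ⟨M, hM, hM1, hMbig⟩ hex

/-- If `2 ^ |W| > 𝔠` then every precolouring outside `W` extends. -/
theorem ext_of_large (Γ : Set M3) (hΓ : ∀ M ∈ Γ, Mᵀ * M = 1) (W : Set V3)
    (hsph : ∀ w ∈ W, w 0 ^ 2 + w 1 ^ 2 + w 2 ^ 2 = 1) (hW : 𝔠 < 2 ^ #W)
    (htriv : ∀ M ∈ Γ, (∀ w ∈ W, M *ᵥ w = w) → M = 1) (k : ℕ) (hk : 2 ≤ k) (c : V3 → Fin k) :
    ∃ c' : V3 → Fin k, (∀ x, x ∉ W → c' x = c x) ∧
      ∀ M ∈ Γ, (∀ x ∈ W, c' (M *ᵥ x) = c' x) → M = 1 := by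
  classical
  -- the least `κ` with `𝔠 < 2 ^ κ`
  obtain ⟨κ, hκ1, hκ2⟩ : ∃ κ : Cardinal.{0}, 𝔠 < 2 ^ κ ∧ ∀ μ < κ, (2 : Cardinal) ^ μ ≤ 𝔠 := by
    have hne : {κ : Cardinal.{0} | 𝔠 < 2 ^ κ}.Nonempty := ⟨_, hW⟩
    refine ⟨WellFounded.min (wellFounded_lt) _ hne, WellFounded.min_mem _ _ hne, fun μ hμ => ?_⟩
    by_contra h
    rw [not_le] at h
    exact WellFounded.not_lt_min wellFounded_lt {κ : Cardinal.{0} | 𝔠 < 2 ^ κ} h hμ
  have hκW : κ ≤ #W := by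
    by_contra h
    rw [not_le] at h
    exact absurd hW (not_lt.2 (hκ2 _ h))
  have hκ : ℵ₀ ≤ κ := by
    by_contra h
    rw [not_le] at h
    have : (2 : Cardinal) ^ κ < ℵ₀ := power_lt_aleph0 (natCast_lt_aleph0 (n := 2)) h
    exact absurd hκ1 (not_lt.2 (this.le.trans aleph0_le_continuum))
  obtain ⟨W1, hW1, hW1κ, c0, hc0, hbad⟩ := exists_base κ hκ Γ hΓ W hsph hκW htriv k hk c
  obtain ⟨f, hf⟩ := exists_seq (ι := κ.ord.ToType) (fun A x => x ∈ W1 ∧ x ∉ cl A) (by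
    intro i g
    have hA : #(Set.range g) < κ := lt_of_le_of_lt mk_range_le (mk_Iio_toType_ord_lt i)
    have h1 := cl_card κ hκ _ hA
    by_contra h
    push Not at h
    exact absurd (hW1κ.trans (mk_le_mk_of_subset h)) (not_le.2 h1))
  have hfs : ∀ i, f i 0 ^ 2 + f i 1 ^ 2 + f i 2 ^ 2 = 1 := fun i => hsph _ (hW1 (hf i).1)
  have hfinj : Function.Injective f := by
    have hinj : ∀ i j, i < j → f i ≠ f j := by
      intro i j hij h
      exact (hf j).2 (Or.inl ⟨i, hij, h⟩)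
    intro i j h
    rcases lt_trichotomy i j with h1 | h1 | h1
    · exact absurd h (hinj i j h1)
    · exact h1
    · exact absurd h.symm (hinj j i h1)
  let cg : (κ.ord.ToType → Bool) → V3 → Fin k := fun g x =>
    if h : ∃ i, f i = x then (if g h.choose then ⟨1, by omega⟩ else ⟨0, by omega⟩) else c0 x
  have cg_out : ∀ g x, (∀ i, f i ≠ x) → cg g x = c0 x := by
    intro g x hx
    simp only [cg]
    rw [dif_neg]
    rintro ⟨i, hi⟩
    exact hx i hi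
  have cg_in : ∀ g i, cg g (f i) = if g i then ⟨1, by omega⟩ else ⟨0, by omega⟩ := by
    intro g i
    have h : ∃ j, f j = f i := ⟨i, rfl⟩
    simp only [cg]
    rw [dif_pos h, hfinj h.choose_spec]
  by_contra hcon
  push Not at hcon
  have hg : ∀ g : κ.ord.ToType → Bool, ∃ M ∈ Γ, (∀ x ∈ W, cg g (M *ᵥ x) = cg g x) ∧ M ≠ 1 := by
    intro g
    refine hcon (cg g) fun x hx => ?_
    rw [cg_out g x (fun i hi => hx (hi ▸ hW1 (hf i).1)), hc0 x hx]
  choose Mg hMg hpres hMne using hg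
  -- the exceptional set of `M` is small
  have hsmall : ∀ g, #{i | ∃ j, Mg g *ᵥ f i = f j} < κ := by
    intro g
    by_contra h
    rw [not_lt] at h
    have h1 := fixed_of_many κ hκ f hfs (fun i => (hf i).2) (Mg g) (hΓ _ (hMg g)) h
    have h2 : κ ≤ #{w | w ∈ W1 ∧ Mg g *ᵥ w = w} := by
      refine h1.trans ?_
      refine mk_le_of_injective (f := fun i => ⟨f i.1, (hf i.1).1, i.2⟩) ?_
      intro i j hij
      exact Subtype.ext (hfinj (congrArg Subtype.val hij))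
    obtain ⟨x, hxW, hx, hMx, hne⟩ := hbad (Mg g) (hMg g) (hMne g) h2
    apply hne
    have h3 := hpres g x hxW
    rwa [cg_out g x (fun i hi => hx (hi ▸ (hf i).1)),
      cg_out g _ (fun i hi => hMx (by rw [← hi]; exact (hf i).1))] at h3
  -- encoding
  have henc : ∀ M : M3, #{i | ∃ j, M *ᵥ f i = f j} < κ →
      ∃ e : (({i | ∃ j, M *ᵥ f i = f j} : Set κ.ord.ToType) → Bool) → ℝ, Function.Injective e := by
    intro M hM
    have h1 : #(({i | ∃ j, M *ᵥ f i = f j} : Set κ.ord.ToType) → Bool) ≤ #ℝ := by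
      rw [← power_def, mk_real]
      simpa using hκ2 _ hM
    obtain ⟨e⟩ := h1
    exact ⟨e, e.injective⟩
  let enc : (M : M3) → (({i | ∃ j, M *ᵥ f i = f j} : Set κ.ord.ToType) → Bool) → ℝ := fun M =>
    if h : #{i | ∃ j, M *ᵥ f i = f j} < κ then (henc M h).choose else fun _ => 0
  have enc_inj : ∀ M, #{i | ∃ j, M *ᵥ f i = f j} < κ → Function.Injective (enc M) := by
    intro M h
    simp only [enc]
    rw [dif_pos h]
    exact (henc M h).choose_spec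
  let Φ : (κ.ord.ToType → Bool) → M3 × ℝ := fun g => (Mg g, enc (Mg g) (fun i => g i.1))
  have hΦ : Function.Injective Φ := by
    intro g g' h
    have h1 : Mg g = Mg g' := congrArg Prod.fst h
    have h2 : enc (Mg g) (fun i => g i.1) = enc (Mg g') (fun i => g' i.1) := congrArg Prod.snd h
    have h3 : enc (Mg g) (fun i => g i.1) = enc (Mg g) (fun i => g' i.1) := by
      rw [h2]
      have : ∀ N N' : M3, N = N' → enc N' (fun i => g' i.1) = enc N (fun i => g' i.1) := by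
        rintro N N' rfl
        rfl
      exact this _ _ h1
    have h4 := enc_inj _ (hsmall g) h3
    funext i
    by_cases hi : ∃ j, Mg g *ᵥ f i = f j
    · exact congrFun h4 ⟨i, hi⟩
    · have hout : ∀ j, f j ≠ Mg g *ᵥ f i := fun j hj => hi ⟨j, hj.symm⟩
      have e1 := hpres g (f i) (hW1 (hf i).1)
      have e2 := hpres g' (f i) (hW1 (hf i).1)
      rw [← h1] at e2
      rw [cg_out g _ hout] at e1
      rw [cg_out g' _ hout] at e2
      rw [e1, cg_in, cg_in] at e2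
      by_cases hb : g i <;> by_cases hb' : g' i <;> simp [hb, hb'] at e2 ⊢
  have hle : (2 : Cardinal) ^ κ ≤ 𝔠 := by
    have h1 := mk_le_of_injective hΦ
    have h2 : #(κ.ord.ToType → Bool) = 2 ^ κ := by
      rw [← power_def]
      simp
    have h3 : #(M3 × ℝ) ≤ 𝔠 := by
      rw [mk_prod]
      simp only [lift_id, mk_real]
      have : #M3 ≤ 𝔠 := by
        have e1 : #M3 = (𝔠 ^ (3 : Cardinal)) ^ (3 : Cardinal) := by
          show #(Fin 3 → Fin 3 → ℝ) = _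
          rw [← power_def, ← power_def, mk_real]
          simp
        rw [e1, ← power_mul]
        refine (power_le_power_left continuum_ne_zero (?_ : _ ≤ ℵ₀)).trans ?_
        · exact (mul_lt_aleph0 (natCast_lt_aleph0 (n := 3)) (natCast_lt_aleph0 (n := 3))).le
        · rw [continuum_power_aleph0]
      refine (mul_le_mul' this le_rfl).trans ?_
      rw [continuum_mul_self]
    rw [← h2]
    exact h1.trans h3
  exact absurd hκ1 (not_lt.2 hle)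

end Pool.Agent.Q303.Sph
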