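import Mathlib

set_option autoImplicit false

/-!
# Words in generic rotations

Rotations are described by quaternions, written as two by two matrices over a ring with a square
root `j` of `-1`.
-/

open Matrix

namespace Pool.Agent.Q303.Sph

section ring

variable {R S : Type*} [CommRing R] [CommRing S]

/-- the matrix of the quaternion `t` -/
def qm (j : R) (t : Fin 4 → R) : Matrix (Fin 2) (Fin 2) R :=
  !![t 0 + j * t 1, t 2 + j * t 3; -t 2 + j * t 3, t 0 - j * t 1]

/-- the conjugate quaternion -/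
def cj (t : Fin 4 → R) : Fin 4 → R := ![t 0, -t 1, -t 2, -t 3]

/-- the matrix of the pure quaternion `w` -/
def pm (j : R) (w : Fin 3 → R) : Matrix (Fin 2) (Fin 2) R :=
  !![j * w 0, w 1 + j * w 2; -w 1 + j * w 2, -(j * w 0)]

/-- the quaternion of a letter -/
def tl {ι : Type*} (t : ι → Fin 4 → R) (x : ι × Bool) : Fin 4 → R :=
  if x.2 then t x.1 else cj (t x.1)

/-- the quaternion of a word -/
def U {ι : Type*} (j : R) (t : ι → Fin 4 → R) (L : List (ι × Bool)) : Matrix (Fin 2) (Fin 2) R :=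
  (L.map fun x => qm j (tl t x)).prod

/-- the matrix whose vanishing says that the word maps `w` to `w'` -/
def E {ι : Type*} (j : R) (t : ι → Fin 4 → R) (L : List (ι × Bool)) (w w' : Fin 3 → R) :
    Matrix (Fin 2) (Fin 2) R :=
  U j t L * pm j w * adjugate (U j t L) - det (U j t L) • pm j w'

lemma U_cons {ι : Type*} (j : R) (t : ι → Fin 4 → R) (x : ι × Bool) (L : List (ι × Bool)) :
    U j t (x :: L) = qm j (tl t x) * U j t L := by simp [U]

lemma U_nil {ι : Type*} (j : R) (t : ι → Fin 4 → R) : U j t ([] : List (ι × Bool)) = 1 := by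
  simp [U]

lemma qm_map (f : R →+* S) (j : R) (t : Fin 4 → R) :
    f.mapMatrix (qm j t) = qm (f j) (fun i => f (t i)) := by
  ext a b; fin_cases a <;> fin_cases b <;> simp [qm]

lemma pm_map (f : R →+* S) (j : R) (t : Fin 3 → R) :
    f.mapMatrix (pm j t) = pm (f j) (fun i => f (t i)) := by
  ext a b; fin_cases a <;> fin_cases b <;> simp [pm]

lemma cj_map (f : R →+* S) (t : Fin 4 → R) :
    (fun i => f (cj t i)) = cj (fun i => f (t i)) := by
  ext a; fin_cases a <;> simp [cj]

lemma tl_map {ι : Type*} (f : R →+* S) (t : ι → Fin 4 → R) (x : ι × Bool) :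
    (fun i => f (tl t x i)) = tl (fun a i => f (t a i)) x := by
  unfold tl
  split_ifs
  · rfl
  · exact cj_map f _

lemma U_map {ι : Type*} (f : R →+* S) (j : R) (t : ι → Fin 4 → R) (L : List (ι × Bool)) :
    f.mapMatrix (U j t L) = U (f j) (fun a i => f (t a i)) L := by
  induction L with
  | nil => rw [U_nil, U_nil, map_one]
  | cons x L ih => rw [U_cons, U_cons, map_mul, ih, qm_map, tl_map]

lemma E_map {ι : Type*} (f : R →+* S) (j : R) (t : ι → Fin 4 → R) (L : List (ι × Bool))
    (w w' : Fin 3 → R) :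
    f.mapMatrix (E j t L w w') =
      E (f j) (fun a i => f (t a i)) L (fun i => f (w i)) (fun i => f (w' i)) := by
  unfold E
  rw [map_sub, map_mul, map_mul, RingHom.map_adjugate, U_map, pm_map]
  congr 1
  have : f.mapMatrix (det (U j t L) • pm j w') = f (det (U j t L)) • f.mapMatrix (pm j w') := by
    ext a b; simp
  rw [this, pm_map, RingHom.map_det, U_map]

end ring

section rankone

/-- the vector of a letter -/
noncomputable def pv {ι : Type*} (s : ι → ℝ) (x : ι × Bool) : Fin 2 → ℂ :=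
  if x.2 then ![1, (s x.1 : ℂ)] else ![-(s x.1 : ℂ), 1]

/-- the isotropic quaternion with parameter `s` -/
noncomputable def tau {ι : Type*} (s : ι → ℝ) (a : ι) : Fin 4 → ℂ :=
  ![(1 + (s a : ℂ) ^ 2) / 2, -Complex.I * (1 - (s a : ℂ) ^ 2) / 2, 0, -Complex.I * s a]

lemma qm_tau {ι : Type*} (s : ι → ℝ) (x : ι × Bool) :
    qm Complex.I (tl (tau s) x) = vecMulVec (pv s x) (pv s x) := by
  have hI : Complex.I ^ 2 = -1 := Complex.I_sq
  obtain ⟨a, b⟩ := x
  cases b
  · ext i j
    fin_cases i <;> fin_cases j <;> simp [qm, tl, tau, pv, vecMulVec, cj] <;>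
      (ring_nf; try simp [hI]) <;> try ring
  · ext i j
    fin_cases i <;> fin_cases j <;> simp [qm, tl, tau, pv, vecMulVec, cj] <;>
      (ring_nf; try simp [hI]) <;> try ring

lemma pair_ne {ι : Type*} (s : ι → ℝ) (hs : ∀ a, 0 < s a) (hinj : Function.Injective s)
    (x y : ι × Bool) (h : x.1 = y.1 → x.2 = y.2) : pv s x ⬝ᵥ pv s y ≠ 0 := by
  obtain ⟨a, b⟩ := x
  obtain ⟨c, d⟩ := y
  simp only at h
  have h1 := hs a
  have h2 := hs c
  by_cases hbd : b = d
  · subst hbd
    cases b
    · simp only [pv, dotProduct, Fin.sum_univ_two]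
      simp
      intro h3
      have : (s a * s c + 1 : ℝ) = 0 := by exact_mod_cast h3
      nlinarith [mul_pos h1 h2]
    · simp only [pv, dotProduct, Fin.sum_univ_two]
      simp
      intro h3
      have : (1 + s a * s c : ℝ) = 0 := by exact_mod_cast h3
      nlinarith [mul_pos h1 h2]
  · have hac : a ≠ c := fun e => hbd (h e)
    have hne : s a ≠ s c := fun e => hac (hinj e)
    cases b <;> cases d <;> simp at hbd <;> simp only [pv, dotProduct, Fin.sum_univ_two] <;>
      simp <;> intro h3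
    · have : (-s a + s c : ℝ) = 0 := by exact_mod_cast h3
      exact hne (by linarith)
    · have : (-s c + s a : ℝ) = 0 := by exact_mod_cast h3
      exact hne (by linarith)

lemma rank_one {ι : Type*} (s : ι → ℝ) (hs : ∀ a, 0 < s a) (hinj : Function.Injective s)
    (L : List (ι × Bool)) : ∀ x : ι × Bool, (x :: L).IsChain (fun a b => a.1 = b.1 → a.2 = b.2) →
      ∃ c : ℂ, c ≠ 0 ∧ U Complex.I (tau s) (x :: L) =
        c • vecMulVec (pv s x) (pv s ((x :: L).getLast (by simp))) := by
  induction L with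
  | nil =>
    intro x _
    exact ⟨1, one_ne_zero, by rw [U_cons, U_nil, qm_tau]; simp⟩
  | cons y L ih =>
    intro x h
    rw [List.isChain_cons_cons] at h
    obtain ⟨c, hc, hU⟩ := ih y h.2
    refine ⟨c * (pv s x ⬝ᵥ pv s y), mul_ne_zero hc (pair_ne s hs hinj x y h.1), ?_⟩
    have hlast : (x :: y :: L).getLast (by simp) = (y :: L).getLast (by simp) :=
      List.getLast_cons (by simp)
    rw [U_cons, hU, qm_tau, hlast]
    ext i j
    simp only [Matrix.mul_apply, Fin.sum_univ_two, vecMulVec, Matrix.smul_apply, Matrix.of_apply,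
      smul_eq_mul, dotProduct]
    ring

/-- the quadratic form of `w` -/
noncomputable def qf (w : Fin 3 → ℝ) (b : Fin 2 → ℂ) : ℂ :=
  b ⬝ᵥ (pm Complex.I (fun i => (w i : ℂ)) *ᵥ ![b 1, -b 0])

lemma E_ne {ι : Type*} (s : ι → ℝ) (hs : ∀ a, 0 < s a) (hinj : Function.Injective s)
    (L : List (ι × Bool)) (hL : L ≠ []) (hred : L.IsChain (fun a b => a.1 = b.1 → a.2 = b.2))
    (w w' : Fin 3 → ℝ) (hq : qf w (pv s (L.getLast hL)) ≠ 0) :
    E Complex.I (tau s) L (fun i => (w i : ℂ)) (fun i => (w' i : ℂ)) ≠ 0 := by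
  obtain ⟨x, L, rfl⟩ := List.exists_cons_of_ne_nil hL
  obtain ⟨c, hc, hU⟩ := rank_one s hs hinj L x hred
  set b := pv s ((x :: L).getLast hL) with hb
  intro h0
  unfold E at h0
  rw [hU] at h0
  have hdet : det (c • vecMulVec (pv s x) b) = 0 := by
    rw [det_fin_two]
    simp only [vecMulVec, Matrix.smul_apply, Matrix.of_apply, smul_eq_mul]
    ring
  rw [hdet, zero_smul, sub_zero, adjugate_fin_two] at h0
  have key : ∀ i j : Fin 2, c ^ 2 * (pv s x i) * qf w b * (![pv s x 1, -pv s x 0] j) = 0 := by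
    intro i j
    have := congrFun (congrFun h0 i) j
    simp only [Matrix.mul_apply, Fin.sum_univ_two, vecMulVec, Matrix.smul_apply, Matrix.of_apply,
      smul_eq_mul, Matrix.zero_apply] at this
    rw [← this]
    unfold qf pm
    fin_cases i <;> fin_cases j <;>
      simp [Matrix.mulVec, dotProduct, Fin.sum_univ_two] <;> ring
  obtain ⟨a, e⟩ := x
  cases e
  · have := key 1 0
    simp [pv, hc] at this
    exact hq this
  · have := key 0 1
    simp [pv, hc] at this
    exact hq this

lemma qf_ne (w : Fin 3 → ℝ) (hw : w ≠ 0) : ∃ r : ℝ, 0 < r ∧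
    qf w ![1, (r : ℂ)] ≠ 0 ∧ qf w ![-(r : ℂ), 1] ≠ 0 := by
  have e1 : ∀ r : ℝ, qf w ![1, (r : ℂ)] =
      ((-w 1 * (1 + r ^ 2) : ℝ) : ℂ) + ((2 * w 0 * r - w 2 * (1 - r ^ 2) : ℝ) : ℂ) * Complex.I := by
    intro r
    unfold qf pm
    simp [Matrix.mulVec, dotProduct, Fin.sum_univ_two]
    ring
  have e2 : ∀ r : ℝ, qf w ![-(r : ℂ), 1] =
      ((-w 1 * (1 + r ^ 2) : ℝ) : ℂ) + ((-(2 * w 0 * r - w 2 * (1 - r ^ 2)) : ℝ) : ℂ) * Complex.I := by
    intro r
    unfold qf pm
    simp [Matrix.mulVec, dotProduct, Fin.sum_univ_two]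
    ring
  have hz : ∀ a b : ℝ, (a : ℂ) + (b : ℂ) * Complex.I = 0 → a = 0 ∧ b = 0 := by
    intro a b h
    have h1 := congrArg Complex.re h
    have h2 := congrArg Complex.im h
    simp at h1 h2
    exact ⟨h1, h2⟩
  have main : ∃ r : ℝ, 0 < r ∧ ¬ (-w 1 * (1 + r ^ 2) = 0 ∧ 2 * w 0 * r - w 2 * (1 - r ^ 2) = 0) := by
    by_cases h1 : w 1 = 0
    · by_cases h0 : w 0 = 0
      · refine ⟨2, by norm_num, fun h => hw ?_⟩
        have h2 : w 2 = 0 := by
          have := h.2
          rw [h0] at this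
          linarith
        funext i
        fin_cases i
        · exact h0
        · exact h1
        · exact h2
      · refine ⟨1, by norm_num, fun h => h0 ?_⟩
        have := h.2
        linarith
    · refine ⟨1, by norm_num, fun h => h1 ?_⟩
      have := h.1
      linarith
  obtain ⟨r, hr, h⟩ := main
  refine ⟨r, hr, fun h' => h ?_, fun h' => h ?_⟩
  · rw [e1] at h'
    exact hz _ _ h'
  · rw [e2] at h'
    obtain ⟨a, b⟩ := hz _ _ h'
    exact ⟨a, by linarith⟩

lemma exists_tau {ι : Type*} (e : ι ↪ ℝ) (L : List (ι × Bool)) (hL : L ≠ [])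
    (hred : L.IsChain (fun a b => a.1 = b.1 → a.2 = b.2)) (w w' : Fin 3 → ℝ) (hw : w ≠ 0) :
    ∃ t : ι → Fin 4 → ℂ, E Complex.I t L (fun i => (w i : ℂ)) (fun i => (w' i : ℂ)) ≠ 0 := by
  obtain ⟨r, hr, h1, h2⟩ := qf_ne w hw
  set z := L.getLast hL with hz
  let s : ι → ℝ := fun a => r * Real.exp (e a) / Real.exp (e z.1)
  have hs : ∀ a, 0 < s a := fun a => by positivity
  have hinj : Function.Injective s := by
    intro a b h
    simp only [s] at h
    have : Real.exp (e a) = Real.exp (e b) := by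
      have h3 := Real.exp_pos (e z.1)
      field_simp at h
      exact h
    exact e.injective (Real.exp_injective this)
  have hsz : s z.1 = r := by
    simp only [s]
    field_simp
  refine ⟨tau s, E_ne s hs hinj L hL hred w w' ?_⟩
  rw [← hz]
  unfold pv
  rw [hsz]
  split_ifs
  · exact h1
  · exact h2

end rankone

end Pool.Agent.Q303.Sph
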